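import Pool.Agent.H41.Polymer2

set_option autoImplicit false

open MeasureTheory Pool.Agent.H41.Polymer
open scoped ENNReal

theorem Pool.Agent.Results.MP_6abe48_pr.Exists.result :
    ∃ (V : Type) (_ : Countable V) (_ : Infinite V) (_ : MeasurableSpace V)
      (_ : DiscreteMeasurableSpace V) (G : SimpleGraph V) (P : V → PMF V) (π : V → ℝ)
      (ν : Measure ℝ),
      G.Connected ∧ (∀ x y, P x y ≠ 0 ↔ G.Adj x y) ∧ (∀ x, (P x).support.Finite) ∧
      (∀ x, 0 < π x) ∧ (∀ x y, π x * (P x y).toReal = π y * (P y x).toReal) ∧ Recurrent P ∧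
      IsProbabilityMeasure ν ∧ ∫ t, t ∂ν = 0 ∧ ∫ t, t ^ 2 ∂ν = 1 ∧
      (∀ β : ℝ, Integrable (fun t => Real.exp (β * t)) ν) ∧
      ∀ (β : ℝ) (x : V) (n : ℕ), ∫⁻ ω, W P ν β n x ω ^ 2 ∂envLaw V ν ≤ 2 := by
  refine ⟨V, inferInstance, ?_, inferInstance, inferInstance, G, P, π, ν, conn, P_ne, fin_supp,
    fun x => ?_, rev, recurrent, inferInstance, by simp [ν_int], by simp [ν_int],
    fun β => ProbabilityTheory.integrable_bernoulliMeasure _ _ _ _, L2⟩
  · exact Infinite.of_injective (fun k : ℕ => (⟨k, ⟨0, N_pos k⟩⟩ : V))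
      fun a b e => congrArg Sigma.fst e
  · exact div_pos (by positivity) (by exact_mod_cast N_pos _)
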